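import Pool.Agent.KRC.Bnd
import Pool.Agent.KRC.Exr
import Pool.Agent.KRC.Lmb
import Pool.Agent.KRC.Lma
import Pool.Agent.KRC.Ext
import Pool.Agent.KRC.Pos
import Pool.Agent.KRC.Har
import Pool.Agent.KRC.Mon
import Pool.Agent.KRC.Smv
import Pool.Agent.KRC.Usc
import Pool.Agent.KRC.Cont
import Pool.Agent.KRC.Lin
import Pool.Agent.KRC.Kgd
import Pool.Agent.KRC.Ptl
import Pool.Agent.KRC.Pck
import Pool.Agent.KRC.Rig
import Pool.Agent.KRC.Dil
import Pool.Agent.KRC.Gd
import Pool.Agent.KRC.Ptb

/-!
# The Korenblum constants `κ_p`: continuity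

`p ↦ κ_p` is continuous on `[1, ∞)`. Upper semicontinuity: a bad pair can be dilated slightly and stays bad for nearby
exponents. Lower semicontinuity: bad pairs for `(q_n, c)`, `q_n → q`, are normalised by `‖f - u g‖` on the annulus and
converge to a pair `(f, g)` or to an infinitesimal pair `(g, k)`, `Re (k conj g) ≥ 0` on the annulus, which contradicts the
Korenblum property for `q` and a constant larger than `c`.
-/

set_option autoImplicit false

namespace Pool.Agent.Results.MP_63a03b_an.Continuity

open Set
open Pool.Agent.KRB (kap)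
open Pool.Agent.KRC

theorem exr' : S_EXR := exr (bnd (har pck) smv ptb rig) mon

theorem gd' : S_GD := gd dil (lin dil ptl ptb) (pos rig)

theorem con' : S_CON := con exr' lma (lmb ptl ptb) gd' usc (kgd extn)

/-- **Continuity of the Korenblum constant.** -/
theorem result : ContinuousOn kap (Ici 1) := con'

end Pool.Agent.Results.MP_63a03b_an.Continuity
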