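import Pool.Agent.KRE.Fin
import Pool.Agent.KRE.Lw
import Pool.Agent.KRE.Fct
import Pool.Agent.KRE.Co2
import Pool.Agent.KRE.Mq
import Pool.Agent.KRE.Chi
import Pool.Agent.KRE.Cst
import Pool.Agent.KRE.Gz
import Pool.Agent.KRE.Hnk
import Pool.Agent.KRE.Gnp
import Pool.Agent.KRE.Pt2
import Pool.Agent.KRE.El
import Pool.Agent.KRE.Intg
import Pool.Agent.KRB.Up
import Pool.Agent.KRB.Rad

/-!
# The Korenblum constants `κ_p`: the exact order of `1 - κ_p`

`1 - κ_p` has the exact order `p^{-1/2}`.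

Upper bound for `κ_p`: the pair `f = exp (-2η (1 + a z)/(1 - a z))`, `g = (z - a)/(1 - a z)`,
`a = 1 - 64 η`, `η = 1/(32 √p)`. Lower bound: if `|f| ≤ |g|` for `c < |z| < 1` and `g` has `n` zeros in
`|z| ≤ c = 1 - η`, then for each `z₀` with `|z₀| ≤ c` there are a unimodular number `u` and a multiplier `Q` which
makes `(f - u g) Q` comparable with `|g| - |f|` on a circle `|w| = ρ`, at a cost `exp (-C (1 + n) (ρ - |z₀|)/η)`, while
the zeros give a gain `exp (c n p η (ρ - |z₀|))`.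
-/

set_option autoImplicit false

namespace Pool.Agent.Results.MP_63a03b_an.ExactOrder

open Pool.Agent.KRB (kap)
open Pool.Agent.KRE

/-- **The exact order of `1 - κ_p`.** -/
theorem result :
    (∀ p : ℝ, 1 ≤ p → 1 / (40 * √p) ≤ 1 - kap p ∧ 1 - kap p ≤ 2300 / √p) ∧
    ∀ p₁ p₂ : ℝ, 1 ≤ p₁ → 10 ^ 10 * p₁ ≤ p₂ → kap p₁ < kap p₂ :=
  fin (Pool.Agent.KRB.up Pool.Agent.KRB.rad)
    (lw fct (co2 (mq chi (cst gz chi) hnk) gnp pt2) el intg)

end Pool.Agent.Results.MP_63a03b_an.ExactOrder
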