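import Pool.Agent.KRC.Fin
import Pool.Agent.KRC.Bnd
import Pool.Agent.KRC.Exr
import Pool.Agent.KRC.Lmr
import Pool.Agent.KRC.Fac
import Pool.Agent.KRC.Lms
import Pool.Agent.KRC.Lmb
import Pool.Agent.KRC.Lma
import Pool.Agent.KRC.Sta
import Pool.Agent.KRC.Stb
import Pool.Agent.KRC.Ext
import Pool.Agent.KRC.Pos
import Pool.Agent.KRC.Har
import Pool.Agent.KRC.Mon
import Pool.Agent.KRC.Rg
import Pool.Agent.KRC.Smv
import Pool.Agent.KRC.Usc
import Pool.Agent.KRC.Cont
import Pool.Agent.KRC.Hop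
import Pool.Agent.KRC.Lin
import Pool.Agent.KRC.Wt
import Pool.Agent.KRC.Kgd
import Pool.Agent.KRC.Ptl
import Pool.Agent.KRC.Pck
import Pool.Agent.KRC.Rig
import Pool.Agent.KRC.Dil
import Pool.Agent.KRC.Str
import Pool.Agent.KRC.Gd
import Pool.Agent.KRC.Ptb
import Pool.Agent.KRB.Core
import Pool.Agent.KRB.Low0
import Pool.Agent.KRB.Low
import Pool.Agent.KRB.Up
import Pool.Agent.KRB.Fin
import Pool.Agent.KRB.Maxp
import Pool.Agent.KRB.Pt
import Pool.Agent.KRB.Rem
import Pool.Agent.KRB.Ph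
import Pool.Agent.KRB.Mul
import Pool.Agent.KRB.Gain
import Pool.Agent.KRB.Pol
import Pool.Agent.KRB.Zf
import Pool.Agent.KRB.Rad

/-!
# The Korenblum constants `κ_p`: strict inequality along integer multiples

`κ_p < κ_{mp}` for real `p ≥ 1` and integers `m ≥ 2`, and `κ_p < κ_q` for `q` near an integer multiple `m p`, uniformly for
`p` in compact sets. Bad pairs for `(mp, c_n)`, `c_n ↓ κ_p`, converge to an extremal pair at the radius `κ_p`: either `(f, g)` with
`∫ |f|^{mp} ≥ ∫ |g|^{mp}`, which is excluded by the Korenblum property for `p` applied to `(f · f^{m-1}, g · f^{m-1})` and strict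
convexity, or an infinitesimal pair `(g, k)` with `∫ |g|^{mp-2} Re (k conj g) ≤ 0`, which is excluded by
the property for `p` with the multipliers `g^{m-2} (g - s k_ρ)`, `k_ρ → k`, to first order in `s`.
-/

set_option autoImplicit false

namespace Pool.Agent.Results.MP_63a03b_an.IntegerMultiples

open Set
open Pool.Agent.KRB (kap)
open Pool.Agent.KRC

theorem exr' : S_EXR := exr (bnd (har pck) smv ptb rig) mon

theorem gd' : S_GD := gd dil (lin dil ptl ptb) (pos rig)

theorem con' : S_CON := con exr' lma (lmb ptl ptb) gd' usc (kgd extn)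

theorem str' : S_STR :=
  str exr' lma (lmb ptl ptb) (kgd extn) (sta dil extn (wt hop))
    (stb fac (lms (lmr (lin dil ptl ptb) rg (wt hop)) ptl ptb) rg)

/-- **Strict inequality near the integer multiples.** In particular `κ_p < κ_{mp}` for real `p ≥ 1`, integers `m ≥ 2`. -/
theorem result : ∀ R : ℝ, ∃ δ : ℝ, 0 < δ ∧ ∀ (m : ℕ) (p q : ℝ), 2 ≤ m → 1 ≤ p → p ≤ R →
    |q - m * p| < δ → kap p < kap q :=
  nb con' str' (Pool.Agent.KRB.fin (Pool.Agent.KRB.up Pool.Agent.KRB.rad)
    (Pool.Agent.KRB.low (Pool.Agent.KRB.low0 (Pool.Agent.KRB.core Pool.Agent.KRB.maxp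
      (Pool.Agent.KRB.pt Pool.Agent.KRB.maxp) Pool.Agent.KRB.rem Pool.Agent.KRB.ph
      Pool.Agent.KRB.mul Pool.Agent.KRB.gain) Pool.Agent.KRB.pol Pool.Agent.KRB.zf)))

end Pool.Agent.Results.MP_63a03b_an.IntegerMultiples
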