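import Pool.Agent.KRD.Nz
import Pool.Agent.KRD.Bd0
import Pool.Agent.KRD.Lm0
import Pool.Agent.KRD.Hur
import Pool.Agent.KRD.Ex0
import Pool.Agent.KRD.Wt0
import Pool.Agent.KRD.Di0
import Pool.Agent.KRD.Log
import Pool.Agent.KRD.Kg0
import Pool.Agent.KRD.St0
import Pool.Agent.KRD.Fin
import Pool.Agent.KRC.Har
import Pool.Agent.KRC.Pck
import Pool.Agent.KRC.Mon
import Pool.Agent.KRC.Hop
import Pool.Agent.KRC.Ext

/-!
# The Korenblum constants for zero-free functions

Let `κ⁰_p` be the Korenblum constant of the exponent `p > 0` for the pairs `(f, g)` in which `f` has no zeros in the disc. Then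
`p ↦ κ⁰_p` is strictly increasing on `(0, ∞)` with values in `(0, 1)`. For `p < q` the pair
`(f^{q/p}, g f^{q/p - 1})` and strict convexity show `κ⁰_p ≤ κ⁰_q`; the strict inequality and the positivity follow from the
existence of an extremal pair at the critical radius: as `f` has no zeros, bad pairs satisfy `|f| ≤ (1 - η) |g|` on compact
subsets of the annulus, and are a normal family.
-/

set_option autoImplicit false

namespace Pool.Agent.Results.MP_63a03b_an.ZeroFree

open Set
open Pool.Agent.KRC (har pck mon hop extn)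
open Pool.Agent.KRD

/-- **The Korenblum constant for zero-free functions is strictly increasing.** -/
theorem result : StrictMonoOn kap0 (Ioi 0) ∧ MapsTo kap0 (Ioi 0) (Ioo 0 1) :=
  fin (ex0 (nz (har pck)) (bd0 (nz (har pck))) lm0 hur mon) (kg0 extn)
    (st0 di0 extn (wt0 hop) Pool.Agent.KRD.log)

end Pool.Agent.Results.MP_63a03b_an.ZeroFree
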